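import Pool.Agent.SFC.A6

/-!
# MP_a5853d_al: central extensions of periodic minimal non-sofic groups
-/

set_option autoImplicit false

namespace Pool.Agent.Results.MP_a5853d_al.CentralExtensions

open SFC

/-- (1) Perfect central torsion extensions `E` of periodic non-sofic groups `T`, such that the
preimages in `E` of the proper subgroups of `T` are sofic, are periodic minimal non-sofic groups.
(2) `Q1` implies that every periodic group `T` with locally finite proper subgroups and a non-split
central extension by a group of prime order `q`, not of exponent `q` itself, is sofic. -/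
theorem result :
    (∀ (E T : Type) [Group E] [Group T] (π : E →* T), Function.Surjective π →
      π.ker ≤ Subgroup.center E → (∀ x ∈ π.ker, IsOfFinOrder x) → commutator E = ⊤ →
      (∀ t : T, IsOfFinOrder t) → ¬ Sofic T → (∀ K : Subgroup T, K ≠ ⊤ → Sofic (K.comap π)) →
      (∀ x : E, IsOfFinOrder x) ∧ MinimalNonSofic E) ∧
    (Q1 → ∀ (T E : Type) [Group T] [Group E] (q : ℕ) (π : E →* T), q.Prime →
      (∀ t : T, IsOfFinOrder t) → (∃ t : T, t ^ q ≠ 1) → ProperLocFin T →
      Function.Surjective π → π.ker ≤ Subgroup.center E → Nat.card π.ker = q →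
      (¬ ∃ σ : T →* E, π.comp σ = MonoidHom.id T) → Sofic T) :=
  ⟨fun _ _ _ _ π hπ hc ht hp hper hns hT => minimal_ext π hπ hns hper hT hc ht hp,
    fun hQ _ _ _ _ _ π hq hper hne hT hπ hc hcard hsplit =>
      sofic_of_Q1 hQ π hπ hq hper hne hT hc hcard hsplit⟩

end Pool.Agent.Results.MP_a5853d_al.CentralExtensions
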